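import Pool.Agent.V8H39.MQ.Prog

/-!
# Questions are replaced by NOT gates of one layer and AND and OR gates
-/

set_option autoImplicit false

namespace Pool.Agent.V8H39.MQ

open Finset

variable {n : ℕ}

theorem LP.andL {s : ℕ} {R : ℕ → ℕ} {L : List (((Fin n → Bool) → Bool) × ℕ)} (h : LP n s R L)
    (j : ℕ) : ∀ fs : List ((Fin n → Bool) → Bool), (∀ f ∈ fs, ∃ a, a ≤ j ∧ (f, a) ∈ L) →
    ∃ L' : List (((Fin n → Bool) → Bool) × ℕ), LP n (s + fs.length) R (L' ++ L) ∧
      (fun x => fs.all fun f => f x, j) ∈ L' ++ L := by
  intro fs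
  induction fs with
  | nil =>
    intro _
    exact ⟨[(fun _ => true, j)], LP.const true j h, List.mem_cons_self⟩
  | cons f fs ih =>
    intro hf
    obtain ⟨L', h1, h2⟩ := ih fun g hg => hf g (List.mem_cons_of_mem _ hg)
    obtain ⟨a, ha, ha'⟩ := hf f List.mem_cons_self
    refine ⟨(fun x => f x && fs.all fun f => f x, j) :: L', ?_, List.mem_cons_self⟩
    rw [List.length_cons, ← add_assoc]
    exact LP.and h1 ⟨a, ha, List.mem_append_right _ ha'⟩ ⟨j, le_rfl, h2⟩

theorem LP.orL {s : ℕ} {R : ℕ → ℕ} {L : List (((Fin n → Bool) → Bool) × ℕ)} (h : LP n s R L)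
    (j : ℕ) : ∀ fs : List ((Fin n → Bool) → Bool), (∀ f ∈ fs, ∃ a, a ≤ j ∧ (f, a) ∈ L) →
    ∃ L' : List (((Fin n → Bool) → Bool) × ℕ), LP n (s + fs.length) R (L' ++ L) ∧
      (fun x => fs.any fun f => f x, j) ∈ L' ++ L := by
  intro fs
  induction fs with
  | nil =>
    intro _
    exact ⟨[(fun _ => false, j)], LP.const false j h, List.mem_cons_self⟩
  | cons f fs ih =>
    intro hf
    obtain ⟨L', h1, h2⟩ := ih fun g hg => hf g (List.mem_cons_of_mem _ hg)
    obtain ⟨a, ha, ha'⟩ := hf f List.mem_cons_self
    refine ⟨(fun x => f x || fs.any fun f => f x, j) :: L', ?_, List.mem_cons_self⟩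
    rw [List.length_cons, ← add_assoc]
    exact LP.or h1 ⟨a, ha, List.mem_append_right _ ha'⟩ ⟨j, le_rfl, h2⟩

/-- the positions of the ones and of the zeros of a string -/
theorem split_pos : ∀ (qs : List ((Fin n → Bool) → Bool)) (z : List Bool),
    z.length = qs.length → ∃ P N : List ((Fin n → Bool) → Bool),
      P.length + N.length = qs.length ∧ (∀ f ∈ P, f ∈ qs) ∧ (∀ f ∈ N, f ∈ qs) ∧
      ∀ x, (qs.map (fun f => f x) = z ↔
        ((P.all fun f => f x) = true ∧ (N.any fun f => f x) = false)) := by
  intro qs
  induction qs with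
  | nil =>
    intro z hz
    have hz' : z = [] := List.length_eq_zero_iff.1 hz
    subst hz'
    exact ⟨[], [], rfl, by simp, by simp, by simp⟩
  | cons q qs ih =>
    intro z hz
    cases z with
    | nil => simp at hz
    | cons b z =>
      obtain ⟨P, N, h1, h2, h3, h4⟩ := ih z (by simpa using hz)
      cases b with
      | true =>
        refine ⟨q :: P, N, by simp only [List.length_cons]; omega, ?_, ?_, fun x => ?_⟩
        · intro f hf
          rcases List.mem_cons.1 hf with rfl | hf
          · exact List.mem_cons_self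
          · exact List.mem_cons_of_mem _ (h2 f hf)
        · exact fun f hf => List.mem_cons_of_mem _ (h3 f hf)
        · rw [List.map_cons, List.cons.injEq, h4 x, List.all_cons, Bool.and_eq_true]
          exact and_assoc.symm
      | false =>
        refine ⟨P, q :: N, by simp only [List.length_cons]; omega, ?_, ?_, fun x => ?_⟩
        · exact fun f hf => List.mem_cons_of_mem _ (h2 f hf)
        · intro f hf
          rcases List.mem_cons.1 hf with rfl | hf
          · exact List.mem_cons_self
          · exact List.mem_cons_of_mem _ (h3 f hf)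
        · rw [List.map_cons, List.cons.injEq, h4 x, List.any_cons, Bool.or_eq_false_iff]
          exact ⟨fun h => ⟨h.2.1, h.1, h.2.2⟩, fun h => ⟨h.2.1, h.1, h.2.2⟩⟩

/-- is the string of the values equal to `z`? -/
theorem LP.eqz {s : ℕ} {R : ℕ → ℕ} {L : List (((Fin n → Bool) → Bool) × ℕ)} (h : LP n s R L)
    (j : ℕ) (qs : List ((Fin n → Bool) → Bool)) (z : List Bool) (hz : z.length = qs.length)
    (hq : ∀ f ∈ qs, ∃ a, a ≤ 2 * j ∧ (f, a) ∈ L) :
    ∃ (L' : List (((Fin n → Bool) → Bool) × ℕ)) (g : (Fin n → Bool) → Bool),
      LP n (s + (qs.length + 1)) (fun i => R i + if i = 2 * j + 1 then 1 else 0) (L' ++ L) ∧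
      (g, 2 * j + 1) ∈ L' ++ L ∧ ∀ x, (g x = true ↔ qs.map (fun f => f x) = z) := by
  obtain ⟨P, N, h1, h2, h3, h4⟩ := split_pos qs z hz
  obtain ⟨L1, a1, a2⟩ := h.andL (2 * j) P fun f hf => hq f (h2 f hf)
  obtain ⟨L2, b1, b2⟩ := a1.orL (2 * j) N fun f hf => by
    obtain ⟨a, ha, ha'⟩ := hq f (h3 f hf)
    exact ⟨a, ha, List.mem_append_right _ ha'⟩
  have c1 := LP.not (j := 2 * j + 1) b1 ⟨2 * j, Nat.lt_succ_self _, b2⟩
  have c2 := LP.and (j := 2 * j + 1) c1 (f := fun x => P.all fun f => f x)
    (g := fun x => !(N.any fun f => f x))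
    ⟨2 * j, by omega, List.mem_cons_of_mem _ (List.mem_append_right _ a2)⟩
    ⟨2 * j + 1, le_rfl, List.mem_cons_self⟩
  refine ⟨(fun x => (P.all fun f => f x) && !(N.any fun f => f x), 2 * j + 1) ::
    (fun x => !(N.any fun f => f x), 2 * j + 1) :: (L2 ++ L1), _, ?_, List.mem_cons_self, ?_⟩
  · rw [List.cons_append, List.cons_append, List.append_assoc]
    have e : s + (qs.length + 1) = s + P.length + N.length + 1 := by omega
    rw [e]
    exact c2
  · intro x
    rw [h4 x, Bool.and_eq_true, Bool.not_eq_true']

/-- the values of all these functions -/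
theorem LP.eqzs {s : ℕ} {R : ℕ → ℕ} {L : List (((Fin n → Bool) → Bool) × ℕ)} (h : LP n s R L)
    (j : ℕ) (qs : List ((Fin n → Bool) → Bool))
    (hq : ∀ f ∈ qs, ∃ a, a ≤ 2 * j ∧ (f, a) ∈ L) : ∀ zs : List (List Bool),
    (∀ z ∈ zs, z.length = qs.length) →
    ∃ (L' : List (((Fin n → Bool) → Bool) × ℕ)) (gs : List ((Fin n → Bool) → Bool)),
      LP n (s + zs.length * (qs.length + 1))
        (fun i => R i + if i = 2 * j + 1 then zs.length else 0) (L' ++ L) ∧
      gs.length = zs.length ∧ (∀ g ∈ gs, (g, 2 * j + 1) ∈ L' ++ L) ∧
      ∀ x, ((gs.any fun g => g x) = true ↔ qs.map (fun f => f x) ∈ zs) := by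
  intro zs
  induction zs with
  | nil =>
    intro _
    refine ⟨[], [], ?_, rfl, by simp, by simp⟩
    simpa using h
  | cons z zs ih =>
    intro hz
    obtain ⟨L1, gs, a1, a2, a3, a4⟩ := ih fun w hw => hz w (List.mem_cons_of_mem _ hw)
    obtain ⟨L2, g, b1, b2, b3⟩ := a1.eqz j qs z (hz z List.mem_cons_self) fun f hf => by
      obtain ⟨a, ha, ha'⟩ := hq f hf
      exact ⟨a, ha, List.mem_append_right _ ha'⟩
    refine ⟨L2 ++ L1, g :: gs, ?_, by simp [a2], ?_, fun x => ?_⟩
    · rw [List.append_assoc, List.length_cons]
      have e : s + (zs.length + 1) * (qs.length + 1) =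
          s + zs.length * (qs.length + 1) + (qs.length + 1) := by ring
      rw [e]
      have e2 : (fun i => R i + if i = 2 * j + 1 then zs.length + 1 else 0) =
          fun i => (R i + if i = 2 * j + 1 then zs.length else 0) +
            if i = 2 * j + 1 then 1 else 0 := by
        funext i
        split_ifs <;> omega
      rw [e2]
      exact b1
    · intro f hf
      rw [List.append_assoc]
      rcases List.mem_cons.1 hf with rfl | hf
      · exact b2
      · exact List.mem_append_right _ (a3 f hf)
    · rw [List.any_cons, Bool.or_eq_true, b3 x, a4 x, List.mem_cons]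

/-- a question -/
theorem LP.ask {s : ℕ} {R : ℕ → ℕ} {L : List (((Fin n → Bool) → Bool) × ℕ)} (h : LP n s R L)
    (j : ℕ) (qs : List ((Fin n → Bool) → Bool))
    (hq : ∀ f ∈ qs, ∃ a, a ≤ 2 * j ∧ (f, a) ∈ L) (S : Set (List Bool)) :
    ∃ (L' : List (((Fin n → Bool) → Bool) × ℕ)) (g : (Fin n → Bool) → Bool),
      LP n (s + {w | w ∈ S ∧ w.length = qs.length}.ncard * (qs.length + 2))
        (fun i => R i + if i = 2 * j + 1 then {w | w ∈ S ∧ w.length = qs.length}.ncard else 0)
        (L' ++ L) ∧
      (g, 2 * j + 1) ∈ L' ++ L ∧ ∀ x, (g x = true ↔ qs.map (fun f => f x) ∈ S) := by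
  classical
  have hfin : {w : List Bool | w ∈ S ∧ w.length = qs.length}.Finite := by
    refine Set.Finite.subset (List.finite_length_eq Bool qs.length) ?_
    rintro w ⟨-, hw⟩
    exact hw
  set zs := hfin.toFinset.toList with hzs
  have hlen : zs.length = {w : List Bool | w ∈ S ∧ w.length = qs.length}.ncard := by
    rw [hzs, Finset.length_toList, Set.ncard_eq_toFinset_card _ hfin]
  have hmem : ∀ w, w ∈ zs ↔ w ∈ S ∧ w.length = qs.length := by
    intro w
    rw [hzs, Finset.mem_toList, Set.Finite.mem_toFinset]
    exact Iff.rfl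
  obtain ⟨L1, gs, a1, a2, a3, a4⟩ := h.eqzs j qs hq zs fun z hz => ((hmem z).1 hz).2
  obtain ⟨L2, b1, b2⟩ := a1.orL (2 * j + 1) gs fun g hg => ⟨_, le_rfl, a3 g hg⟩
  refine ⟨L2 ++ L1, _, ?_, by rw [List.append_assoc]; exact b2, fun x => ?_⟩
  · rw [← hlen, List.append_assoc]
    have e : s + zs.length * (qs.length + 2) = s + zs.length * (qs.length + 1) + gs.length := by
      rw [a2]; ring
    rw [e]
    exact b1
  · rw [a4 x, hmem]
    constructor
    · exact fun h => h.1
    · exact fun h => ⟨h, by simp⟩

/-! ### Values of the nodes of an oracle circuit -/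

theorem vals_append (S : Set (List Bool)) (x : Fin n → Bool) (l : List (Node n)) (g : Node n) :
    vals S x (l ++ [g]) = vals S x l ++ [g.eval S x fun k => (vals S x l).getD k false] := by
  simp [vals]

theorem vals_length (S : Set (List Bool)) (x : Fin n → Bool) (l : List (Node n)) :
    (vals S x l).length = l.length := by
  induction l using List.reverseRecOn with
  | nil => rfl
  | append_singleton l g ih => rw [vals_append]; simp [ih]

theorem vals_getD_append (S : Set (List Bool)) (x : Fin n → Bool) (l l' : List (Node n)) (k : ℕ)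
    (hk : k < l.length) : (vals S x (l ++ l')).getD k false = (vals S x l).getD k false := by
  induction l' using List.reverseRecOn with
  | nil => simp
  | append_singleton l' g ih =>
    rw [← List.append_assoc, vals_append, List.getD_append, ih]
    rw [vals_length, List.length_append]
    omega

theorem vals_last (S : Set (List Bool)) (x : Fin n → Bool) (l : List (Node n)) (g : Node n) :
    (vals S x (l ++ [g])).getD l.length false =
      g.eval S x fun k => (vals S x l).getD k false := by
  rw [vals_append, List.getD_append_right _ _ _ _ (by rw [vals_length]), vals_length]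
  simp

/-- the cost of the expansion of a node -/
noncomputable def ecost (S : Set (List Bool)) : Node n → ℕ
  | .and _ _ => 1
  | .or _ _ => 1
  | .ask l => {w | w ∈ S ∧ w.length = l.length}.ncard * (l.length + 2)
  | _ => 0

/-- the load of the layer `j` in a list of nodes -/
noncomputable def loadL (S : Set (List Bool)) (l : List (Node n)) (lev : ℕ → ℕ) (j : ℕ) : ℕ :=
  ∑ i ∈ (range l.length).filter (fun i => lev i = j), (l.getD i (.const false)).load S

theorem loadL_append (S : Set (List Bool)) (l : List (Node n)) (g : Node n) (lev : ℕ → ℕ) (j : ℕ) :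
    loadL S (l ++ [g]) lev j = loadL S l lev j + if j = lev l.length then g.load S else 0 := by
  unfold loadL
  rw [List.length_append, List.length_singleton, Finset.range_add_one, Finset.filter_insert]
  have h1 : ∀ i ∈ (range l.length).filter (fun i => lev i = j),
      ((l ++ [g]).getD i (.const false)).load S = (l.getD i (.const false)).load S := by
    intro i hi
    rw [List.getD_append _ _ _ _ (mem_range.1 (mem_filter.1 hi).1)]
  by_cases h : lev l.length = j
  · rw [if_pos h, if_pos h.symm, Finset.sum_insert (by simp), Finset.sum_congr rfl h1,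
      List.getD_append_right _ _ _ _ le_rfl]
    simp [add_comm]
  · rw [if_neg h, if_neg (fun h' => h h'.symm), Finset.sum_congr rfl h1, add_zero]

/-- the expansion of a list of nodes -/
theorem expand (S : Set (List Bool)) (lev : ℕ → ℕ) (l : List (Node n))
    (hl : ∀ (i : ℕ) (h : i < l.length),
    (∀ k ∈ (l[i]).ins, k < i → lev k ≤ lev i) ∧ ∀ k ∈ (l[i]).wires, k < i → lev k < lev i) :
    ∃ (R : ℕ → ℕ) (L : List (((Fin n → Bool) → Bool) × ℕ)),
      LP n ((l.map (ecost S)).sum) R L ∧ (∀ j, R (2 * j) = 0) ∧
      (∀ j, R (2 * j + 1) = loadL S l lev j) ∧ ((fun _ => false, 0) ∈ L) ∧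
      ∀ k, k < l.length → ((fun x => (vals S x l).getD k false, 2 * lev k + 1) ∈ L) := by
  classical
  induction l using List.reverseRecOn with
  | nil =>
    refine ⟨fun _ => 0, [(fun _ => false, 0)], LP.const false 0 LP.nil, fun _ => rfl, fun j => ?_,
      List.mem_cons_self, fun k hk => ?_⟩
    · simp [loadL]
    · simp at hk
  | append_singleton l g ih =>
    obtain ⟨R, L, h1, h2, h3, h4, h5⟩ := ih (fun i hi => by
      have := hl i (by rw [List.length_append]; omega)
      rw [List.getElem_append_left hi] at this
      exact this)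
    have hg := hl l.length (by simp)
    rw [List.getElem_append_right (le_refl _)] at hg
    simp only [Nat.sub_self, List.getElem_singleton] at hg
    obtain ⟨hg1, hg2⟩ := hg
    set j := lev l.length with hj
    have av1 : ∀ k ∈ g.ins, ∃ a, a ≤ 2 * j + 1 ∧
        ((fun x => (vals S x l).getD k false, a) ∈ L) := by
      intro k hk
      rcases Nat.lt_or_ge k l.length with hlt | hge
      · exact ⟨_, by have := hg1 k hk hlt; omega, h5 k hlt⟩
      · refine ⟨0, Nat.zero_le _, ?_⟩
        have e : (fun x => (vals S x l).getD k false) = fun _ => false := by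
          funext x
          rw [List.getD_eq_default]
          rw [vals_length]; exact hge
        rw [e]; exact h4
    have av2 : ∀ k ∈ g.wires, ∃ a, a ≤ 2 * j ∧
        ((fun x => (vals S x l).getD k false, a) ∈ L) := by
      intro k hk
      rcases Nat.lt_or_ge k l.length with hlt | hge
      · exact ⟨_, by have := hg2 k hk hlt; omega, h5 k hlt⟩
      · refine ⟨0, Nat.zero_le _, ?_⟩
        have e : (fun x => (vals S x l).getD k false) = fun _ => false := by
          funext x
          rw [List.getD_eq_default]
          rw [vals_length]; exact hge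
        rw [e]; exact h4
    suffices hstep : ∃ (R' : ℕ → ℕ) (L' : List (((Fin n → Bool) → Bool) × ℕ)),
        LP n ((l.map (ecost S)).sum + ecost S g) R' (L' ++ L) ∧
        (∀ i, R' i = R i + if i = 2 * j + 1 then g.load S else 0) ∧
        ((fun x => g.eval S x fun k => (vals S x l).getD k false, 2 * j + 1) ∈ L' ++ L) by
      obtain ⟨R', L', c1, c2, c3⟩ := hstep
      refine ⟨R', L' ++ L, ?_, fun i => ?_, fun i => ?_, List.mem_append_right _ h4,
        fun k hk => ?_⟩
      · rw [List.map_append, List.sum_append]
        simpa using c1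
      · rw [c2, h2, if_neg (by omega)]
      · rw [c2, h3, loadL_append, ← hj]
        congr 1
        by_cases h : i = j
        · rw [if_pos (by omega), if_pos h]
        · rw [if_neg (by omega), if_neg h]
      · rw [List.length_append, List.length_singleton] at hk
        rcases Nat.lt_or_ge k l.length with hlt | hge
        · have e : (fun x => (vals S x (l ++ [g])).getD k false) =
              fun x => (vals S x l).getD k false := by
            funext x
            exact vals_getD_append S x l [g] k hlt
          rw [e]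
          exact List.mem_append_right _ (h5 k hlt)
        · have hk' : k = l.length := by omega
          subst hk'
          have e : (fun x => (vals S x (l ++ [g])).getD l.length false) =
              fun x => g.eval S x fun k => (vals S x l).getD k false := by
            funext x
            exact vals_last S x l g
          rw [e, ← hj]
          exact c3
    cases g with
    | input i =>
      refine ⟨R, [(fun x => x i, 2 * j + 1)], LP.input i _ h1, fun i => ?_, List.mem_cons_self⟩
      simp [Node.load]
    | const b =>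
      refine ⟨R, [(fun x => b, 2 * j + 1)], LP.const b _ h1, fun i => ?_, List.mem_cons_self⟩
      simp [Node.load]
    | and a b =>
      refine ⟨R, [(fun x => (vals S x l).getD a false && (vals S x l).getD b false, 2 * j + 1)],
        LP.and h1 (av1 a (by simp [Node.ins])) (av1 b (by simp [Node.ins])), fun i => ?_,
        List.mem_cons_self⟩
      simp [Node.load]
    | or a b =>
      refine ⟨R, [(fun x => (vals S x l).getD a false || (vals S x l).getD b false, 2 * j + 1)],
        LP.or h1 (av1 a (by simp [Node.ins])) (av1 b (by simp [Node.ins])), fun i => ?_,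
        List.mem_cons_self⟩
      simp [Node.load]
    | not a =>
      obtain ⟨a', ha, ha'⟩ := av2 a (by simp [Node.wires])
      refine ⟨_, [(fun x => !((vals S x l).getD a false), 2 * j + 1)],
        LP.not h1 ⟨a', by omega, ha'⟩, fun i => rfl, List.mem_cons_self⟩
    | ask q =>
      obtain ⟨L', f, c1, c2, c3⟩ := h1.ask j (q.map fun k => fun x => (vals S x l).getD k false)
        (fun f hf => by
          obtain ⟨k, hk, rfl⟩ := List.mem_map.1 hf
          exact av2 k hk) S
      rw [List.length_map] at c1
      refine ⟨_, L', c1, fun i => rfl, ?_⟩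
      have e : (fun x => (Node.ask q).eval S x fun k => (vals S x l).getD k false) = f := by
        funext x
        rw [Bool.eq_iff_iff, c3 x]
        simp only [Node.eval, decide_eq_true_eq, List.map_map, Function.comp_def]
      rw [e]
      exact c2

end Pool.Agent.V8H39.MQ
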