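import Pool.Agent.V8H39.NP.Circ
import Pool.Agent.V8H39.MQ.Expand

/-!
# Every function with small circuits is reducible to a fixed set with few strings by circuits
without NOT gates
-/

set_option autoImplicit false

namespace Pool.Agent.V8H39.MQ

open Finset Pool.Agent.H520R2 Pool.Agent.V8H38.NL Pool.Agent.V8H39.NP

variable {n : ℕ}

/-! ### Strings -/

theorem map_lt (w : ℕ) : ∀ n : ℕ, w ≤ n → (List.range n).map (fun b => decide (b < w)) =
    List.replicate w true ++ List.replicate (n - w) false := by
  intro n
  induction n with
  | zero =>
    intro h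
    have h0 : w = 0 := by omega
    subst h0
    rfl
  | succ n ih =>
    intro h
    rw [List.range_succ, List.map_append]
    rcases Nat.lt_or_ge n w with h1 | h1
    · have hw : w = n + 1 := by omega
      subst hw
      have h2 : (List.range n).map (fun b => decide (b < n + 1)) = List.replicate n true := by
        rw [List.eq_replicate_iff]
        refine ⟨by simp, ?_⟩
        intro b hb
        obtain ⟨a, ha, rfl⟩ := List.mem_map.1 hb
        rw [List.mem_range] at ha
        exact decide_eq_true (by omega)
      rw [h2]
      simp [List.replicate_succ']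
    · rw [ih h1]
      have h2 : n + 1 - w = (n - w) + 1 := by omega
      rw [h2, List.replicate_succ', ← List.append_assoc]
      have h3 : decide (n < w) = false := decide_eq_false (by omega)
      simp [h3]

/-- the string asked for an input with `w` ones on which the value is `b` -/
def str (n w : ℕ) (b : Bool) : List Bool :=
  (List.range n).map (fun i => decide (i < w)) ++
    (List.range (n + 1)).map (fun i => decide (i < w) || (decide (i = w) && b))

theorem str_true {n w : ℕ} (h : w ≤ n) : str n w true ∈ Thr := by
  refine ⟨n, w, h, ?_⟩
  unfold str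
  rw [map_lt w n h]
  congr 1
  have h2 : (fun i => decide (i < w) || (decide (i = w) && true)) = fun i => decide (i < w + 1) := by
    funext i
    rw [Bool.and_true, ← Bool.decide_or]
    congr 1
    exact propext (by omega)
  rw [h2, map_lt (w + 1) (n + 1) (by omega)]
  congr 2
  omega

theorem count_map_lt {n w : ℕ} (h : w ≤ n) :
    ((List.range n).map (fun b => decide (b < w))).count true = w := by
  rw [map_lt w n h, List.count_append, List.count_replicate_self, List.count_replicate]
  simp

theorem count_thr {z : List Bool} (h : z ∈ Thr) : Odd (z.count true) := by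
  obtain ⟨n, j, _, rfl⟩ := h
  refine ⟨j, ?_⟩
  simp only [List.count_append, List.count_replicate_self, List.count_replicate]
  simp
  ring

theorem str_false {n w : ℕ} (h : w ≤ n) : str n w false ∉ Thr := by
  intro hz
  have h1 := count_thr hz
  unfold str at h1
  have h2 : (fun i => decide (i < w) || (decide (i = w) && false)) = fun i => decide (i < w) := by
    funext i
    rw [Bool.and_false, Bool.or_false]
  rw [h2, List.count_append, count_map_lt h, count_map_lt (by omega)] at h1
  exact (Nat.not_odd_iff_even.2 ⟨w, rfl⟩) h1

theorem str_mem {n w : ℕ} (h : w ≤ n) (b : Bool) : str n w b ∈ Thr ↔ b = true := by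
  cases b with
  | true => exact ⟨fun _ => rfl, fun _ => str_true h⟩
  | false => exact ⟨fun h' => absurd h' (str_false h), fun h' => by cases h'⟩

/-- the string with the number `j` -/
def zst (n j : ℕ) : List Bool := (List.replicate j true ++ List.replicate (n - j) false) ++
    (List.replicate (j + 1) true ++ List.replicate (n - j) false)

theorem zst_length {n j : ℕ} (h : j ≤ n) : (zst n j).length = 2 * n + 1 := by
  unfold zst
  simp only [List.length_append, List.length_replicate]
  omega

theorem zst_count (n j : ℕ) : (zst n j).count true = 2 * j + 1 := by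
  unfold zst
  simp only [List.count_append, List.count_replicate_self, List.count_replicate]
  simp
  ring

theorem thr_card (n : ℕ) : {w | w ∈ Thr ∧ w.length = 2 * n + 1}.ncard = n + 1 := by
  classical
  have h : {w | w ∈ Thr ∧ w.length = 2 * n + 1} = ((range (n + 1)).image (zst n) : Finset _) := by
    ext w
    rw [Finset.coe_image, Set.mem_image]
    constructor
    · rintro ⟨⟨n', j, hj, rfl⟩, hl⟩
      have h1 : (zst n' j).length = 2 * n + 1 := hl
      rw [zst_length hj] at h1
      have h2 : n' = n := by omega
      subst h2
      exact ⟨j, by simp; omega, rfl⟩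
    · rintro ⟨j, hj, rfl⟩
      have hj' : j ≤ n := by
        have := Finset.mem_range.1 (Finset.mem_coe.1 hj)
        omega
      exact ⟨⟨n, j, hj', rfl⟩, zst_length hj'⟩
  rw [h, Set.ncard_coe_finset, Finset.card_image_of_injective, Finset.card_range]
  intro a b hab
  have := congrArg (fun l => l.count true) hab
  simp only [zst_count] at this
  omega

/-! ### Translations of circuits -/

/-- a node without question as a gate -/
def toGate : MQ.Node n → Gate n
  | .input i => .input i
  | .const b => .const b
  | .and a b => .and a b
  | .or a b => .or a b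
  | .not a => .not a
  | .ask _ => .const false

/-- a gate as a node -/
def ofGate : Gate n → MQ.Node n
  | .input i => .input i
  | .const b => .const b
  | .and a b => .and a b
  | .or a b => .or a b
  | .not a => .not a

theorem values_toGate (S : Set (List Bool)) (x : Fin n → Bool) (l : List (MQ.Node n))
    (hl : ∀ g ∈ l, g.isAsk = false) : values x (l.map toGate) = vals S x l := by
  induction l using List.reverseRecOn with
  | nil => rfl
  | append_singleton l g ih =>
    have h1 := ih fun g hg => hl g (List.mem_append_left _ hg)
    rw [List.map_append, List.map_singleton, values_append, MQ.vals_append, h1]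
    congr 1
    have h2 := hl g (by simp)
    cases g with
    | ask q => simp [Node.isAsk] at h2
    | input i => rfl
    | const b => rfl
    | and a b => rfl
    | or a b => rfl
    | not a => rfl

theorem vals_ofGate (S : Set (List Bool)) (x : Fin n → Bool) (l : List (Gate n)) :
    vals S x (l.map ofGate) = values x l := by
  induction l using List.reverseRecOn with
  | nil => rfl
  | append_singleton l g ih =>
    rw [List.map_append, List.map_singleton, values_append, MQ.vals_append, ih]
    congr 1
    cases g <;> rfl

theorem cost_ofGate (l : List (Gate n)) : ((l.map ofGate).map MQ.Node.cost).sum =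
    l.countP Gate.isAndOr := by
  induction l with
  | nil => rfl
  | cons g l ih =>
    rw [List.map_cons, List.map_cons, List.sum_cons, ih, List.countP_cons, add_comm]
    cases g <;> rfl

theorem countP_toGate (l : List (MQ.Node n)) : (l.map toGate).countP Gate.isAndOr ≤
    (l.map MQ.Node.cost).sum := by
  induction l with
  | nil => simp
  | cons g l ih =>
    rw [List.map_cons, List.map_cons, List.sum_cons, List.countP_cons, add_comm]
    refine Nat.add_le_add ?_ ih
    cases g <;> simp [toGate, Gate.isAndOr, Node.cost]

/-! ### The slice functions -/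

/-- the slice function with the number `j` -/
def sl (f : (Fin n → Bool) → Bool) (j : ℕ) (x : Fin n → Bool) : Bool :=
  decide (j < wt x) || (decide (j = wt x) && f x)

/-- the variables -/
def vars (n : ℕ) : List ((Fin n → Bool) → Bool) := (List.finRange n).map fun i => fun x => x i

theorem thr_vars (b : ℕ) (x : Fin n → Bool) : thr (vars n) b x = decide (b ≤ wt x) := by
  unfold thr vars
  rw [cnt_vars]

theorem wt_zero {i : Fin n} {x : Fin n → Bool} (hi : x i = true) : wt (zero i x) + 1 = wt x := by
  unfold wt
  have h8 : (univ.filter fun j => x j = true) =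
      insert i (univ.filter fun j => zero i x j = true) := by
    ext j
    rw [mem_insert, mem_filter, mem_filter]
    by_cases hj : j = i
    · subst hj; simp [hi]
    · simp [zero, hj]
  rw [h8, card_insert_of_notMem]
  rw [mem_filter]
  simp [zero]

theorem zero_self {i : Fin n} {x : Fin n → Bool} (hi : x i = false) : zero i x = x := by
  unfold zero
  rw [← hi]; exact Function.update_eq_self i x

/-- the programs for the slice functions -/
theorem slices (f : (Fin n → Bool) → Bool) (l : List (Gate n)) (out : ℕ)
    (hl : ∀ x, nd x l out = f x) :
    ∃ L : List ((Fin n → Bool) → Bool), MProg (VB (Fin n)) L ∧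
      L.length ≤ 2 * (n + 1) * (n * (n + 1) + l.countP Gate.isAndOr + 1) ∧
      (∀ b, b ≤ n + 1 → Av (VB (Fin n)) L (thr (vars n) b)) ∧
      ∀ j, j ≤ n → Av (VB (Fin n)) L (sl f j) := by
  have htrue : (fun _ => true) ∈ VB (Fin n) := Or.inl ⟨true, rfl⟩
  have hfalse : (fun _ => false) ∈ VB (Fin n) := Or.inl ⟨false, rfl⟩
  obtain ⟨L0, hL0, hlen0, hav0⟩ := thr_prog (MProg.nil (B := VB (Fin n))) (vars n) (by
    intro g hg
    unfold vars at hg
    rw [List.mem_map] at hg
    obtain ⟨i, _, rfl⟩ := hg
    exact Or.inl (Or.inr ⟨i, rfl⟩)) htrue hfalse (n + 1)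
  rw [List.append_nil] at hL0
  have hlen0' : L0.length ≤ 2 * (n + 1) * n := by
    have : (vars n).length = n := by simp [vars]
    rw [this] at hlen0
    exact hlen0
  have hav0' : ∀ b, b ≤ n + 1 → Av (VB (Fin n)) L0 (thr (vars n) b) := by
    intro b hb
    have := hav0 b hb
    rwa [List.append_nil] at this
  -- the restrictions of the program
  have hres : ∀ I : List (Fin n), ∃ L1 : List ((Fin n → Bool) → Bool),
      MProg (VB (Fin n)) L1 ∧ L1.length = I.length * L0.length ∧
      ∀ i ∈ I, ∀ b, b ≤ n + 1 → Av (VB (Fin n)) L1 (thr (vars n) b ∘ zero i) := by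
    intro I
    induction I with
    | nil => exact ⟨[], MProg.nil, by simp, by simp⟩
    | cons i I ih =>
      obtain ⟨L1, h1, h2, h3⟩ := ih
      have h4 := hL0.comp (zero i) (VB_zero i)
      refine ⟨L0.map (fun f => f ∘ zero i) ++ L1, h1.append h4, ?_, ?_⟩
      · rw [List.length_append, List.length_map, h2, List.length_cons]; ring
      · intro i' hi' b hb
        rcases List.mem_cons.1 hi' with rfl | hi'
        · rcases hav0' b hb with hg | hg
          · exact Or.inl (VB_zero _ _ hg)
          · exact Or.inr (List.mem_append_left _ (List.mem_map_of_mem hg))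
        · exact (h3 i' hi' b hb).mono _
  obtain ⟨L1, h1, h2, h3⟩ := hres (List.finRange n)
  have h4 : MProg (VB (Fin n)) (L0 ++ L1) := h1.append hL0
  have h5 : ∀ b, b ≤ n + 1 → Av (VB (Fin n)) (L0 ++ L1) (thr (vars n) b) := fun b hb =>
    (hav0' b hb).imp id (List.mem_append_left _)
  have h6 : ∀ t, t ≤ n + 1 → ∃ L2 : List ((Fin n → Bool) → Bool),
      MProg (VB (Fin n)) (L2 ++ (L0 ++ L1)) ∧
      L2.length ≤ t * (2 * l.countP Gate.isAndOr + 2) ∧
      ∀ j, j < t → Av (VB (Fin n)) (L2 ++ (L0 ++ L1)) (sl f j) := by
    intro t
    induction t with
    | zero => exact fun _ => ⟨[], by simpa using h4, by simp, fun j hj => absurd hj (by omega)⟩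
    | succ t ih =>
      intro ht
      obtain ⟨L2, a1, a2, a3⟩ := ih (by omega)
      obtain ⟨L3, b1, b2, b3⟩ := dual a1 (fun i => thr (vars n) t ∘ zero i)
        (fun i => ((h3 i (List.mem_finRange i) t (by omega)).mono L0).mono L2) l
      obtain ⟨p, m, hp, _, hA, hB⟩ := b3 out
      have c1 := MProg.and (f := thr (vars n) t) (g := p) b1 (((h5 t (by omega)).mono L2).mono L3) hp
      have c2 := MProg.or (f := thr (vars n) (t + 1)) (g := fun x => thr (vars n) t x && p x) c1
        ((((h5 (t + 1) ht).mono L2).mono L3).imp id (List.mem_cons_of_mem _))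
        (Or.inr List.mem_cons_self)
      have hsl : (fun x => thr (vars n) (t + 1) x || (thr (vars n) t x && p x)) = sl f t := by
        funext x
        unfold sl
        rw [thr_vars, thr_vars]
        rcases Nat.lt_trichotomy (wt x) t with h | h | h
        · rw [decide_eq_false (by omega : ¬ t + 1 ≤ wt x), decide_eq_false (by omega : ¬ t ≤ wt x),
            decide_eq_false (by omega : ¬ t < wt x), decide_eq_false (by omega : ¬ t = wt x)]
          rfl
        · rw [decide_eq_false (by omega : ¬ t + 1 ≤ wt x), decide_eq_true (by omega : t ≤ wt x),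
            decide_eq_false (by omega : ¬ t < wt x), decide_eq_true (by omega : t = wt x)]
          have e1 : ∀ i, x i = false → (thr (vars n) t ∘ zero i) x = true := by
            intro i hi
            rw [Function.comp_apply, zero_self hi, thr_vars]
            exact decide_eq_true (by omega)
          have e2 : ∀ i, x i = true → (thr (vars n) t ∘ zero i) x = false := by
            intro i hi
            have := wt_zero hi
            rw [Function.comp_apply, thr_vars]
            exact decide_eq_false (by omega)
          have e3 : p x = f x := by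
            rw [← hl x]
            cases hv : nd x l out with
            | true => exact (hA x e1).1 hv
            | false => exact (hB x e2).1 hv
          rw [e3]
        · rw [decide_eq_true (by omega : t + 1 ≤ wt x), decide_eq_true (by omega : t < wt x),
            Bool.true_or, Bool.true_or]
      rw [hsl] at c2
      refine ⟨sl f t :: (fun x => thr (vars n) t x && p x) :: (L3 ++ L2), ?_, ?_, ?_⟩
      · rw [List.cons_append, List.cons_append, List.append_assoc]
        exact c2
      · rw [List.length_cons, List.length_cons, List.length_append]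
        calc L3.length + L2.length + 1 + 1
            ≤ 2 * l.countP Gate.isAndOr + t * (2 * l.countP Gate.isAndOr + 2) + 1 + 1 := by omega
          _ = (t + 1) * (2 * l.countP Gate.isAndOr + 2) := by ring
      · intro j hj
        rcases Nat.lt_or_ge j t with h | h
        · have := a3 j h
          rw [List.cons_append, List.cons_append, List.append_assoc]
          exact ((this.mono L3).mono [fun x => thr (vars n) t x && p x]).mono [sl f t]
        · have hj' : j = t := by omega
          subst hj'
          exact Or.inr List.mem_cons_self
  obtain ⟨L2, c1, c2, c3⟩ := h6 (n + 1) le_rfl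
  refine ⟨L2 ++ (L0 ++ L1), c1, ?_, fun b hb => (h5 b hb).mono _, fun j hj => c3 j (by omega)⟩
  rw [List.length_append, List.length_append, h2, List.length_finRange]
  have h7 : n * L0.length ≤ n * (2 * (n + 1) * n) := Nat.mul_le_mul_left _ hlen0'
  calc L2.length + (L0.length + n * L0.length)
      ≤ (n + 1) * (2 * l.countP Gate.isAndOr + 2) + (2 * (n + 1) * n + n * (2 * (n + 1) * n)) := by
        omega
    _ = 2 * (n + 1) * (n * (n + 1) + l.countP Gate.isAndOr + 1) := by ring

/-- **The upper bound.** -/
theorem upper (C : Circ n) (hC : C.Plain) (S : Set (List Bool)) :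
    ∃ C' : Circ n, C'.OneAsk (2 * n + 1) ∧
      C'.size ≤ 2 * (n + 1) * ((n + 1) ^ 2 + C.size + 1) ∧
      ∀ x, C'.eval Thr x = C.eval S x := by
  classical
  obtain ⟨L, h1, h2, h3, h4⟩ := slices (C.eval S) (C.nodes.map toGate) C.out (fun x => by
    unfold nd
    rw [values_toGate S x C.nodes hC]
    rfl)
  have g1 := (GP.nil (n := n)).append h1
  rw [List.append_nil, zero_add] at g1
  obtain ⟨l, a1, a2, a3⟩ := g1.toNodes
  -- the functions of the question
  set qs : List ((Fin n → Bool) → Bool) := (List.range n).map (fun b => thr (vars n) (b + 1)) ++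
    (List.range (n + 1)).map (fun j => sl (C.eval S) j) with hqs
  have hqlen : qs.length = 2 * n + 1 := by
    rw [hqs, List.length_append, List.length_map, List.length_map, List.length_range,
      List.length_range]
    omega
  have hqav : ∀ q ∈ qs, ∃ i, i < l.length ∧ ∀ x, nd x l i = q x := by
    intro q hq
    rw [hqs, List.mem_append, List.mem_map, List.mem_map] at hq
    rcases hq with ⟨b, hb, rfl⟩ | ⟨j, hj, rfl⟩
    · rw [List.mem_range] at hb
      exact a3 _ (h3 _ (by omega))
    · rw [List.mem_range] at hj
      exact a3 _ (h4 _ (by omega))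
  have hidx : ∀ qs' : List ((Fin n → Bool) → Bool),
      (∀ q ∈ qs', ∃ i, i < l.length ∧ ∀ x, nd x l i = q x) →
      ∃ idx : List ℕ, idx.length = qs'.length ∧
        ∀ x, idx.map (fun i => nd x l i) = qs'.map (fun q => q x) := by
    intro qs'
    induction qs' with
    | nil => exact fun _ => ⟨[], rfl, fun x => rfl⟩
    | cons q qs' ih =>
      intro h
      obtain ⟨idx, i1, i2⟩ := ih fun q hq => h q (List.mem_cons_of_mem _ hq)
      obtain ⟨i, _, hi⟩ := h q List.mem_cons_self
      exact ⟨i :: idx, by simp [i1], fun x => by rw [List.map_cons, List.map_cons, i2 x, hi x]⟩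
  obtain ⟨idx, i1, i2⟩ := hidx qs hqav
  refine ⟨⟨l.map ofGate ++ [.ask idx], l.length⟩, ⟨l.map ofGate, idx, rfl, by simp, ?_, ?_⟩, ?_, ?_⟩
  · rw [i1, hqlen]
  · intro g hg
    obtain ⟨g', hg', rfl⟩ := List.mem_map.1 hg
    constructor
    · have h5 := List.countP_eq_zero.1 a2 g' hg'
      cases g' with
      | not a => exact absurd rfl h5
      | input i => rfl
      | const b => rfl
      | and a b => rfl
      | or a b => rfl
    · cases g' <;> rfl
  · unfold Circ.size
    rw [List.map_append, List.sum_append, cost_ofGate, a1]
    have h5 : (List.map MQ.Node.cost [(Node.ask idx : MQ.Node n)]).sum = 2 * n + 2 := by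
      simp [Node.cost, i1, hqlen]
    rw [h5]
    have h6 := countP_toGate C.nodes
    set s := (C.nodes.map MQ.Node.cost).sum with hs
    calc L.length + (2 * n + 2)
        ≤ 2 * (n + 1) * (n * (n + 1) + (C.nodes.map toGate).countP Gate.isAndOr + 1) +
          (2 * n + 2) := by omega
      _ ≤ 2 * (n + 1) * (n * (n + 1) + s + 1) + 2 * (n + 1) := by
          gcongr
          omega
      _ = 2 * (n + 1) * (n * (n + 1) + s + 2) := by ring
      _ ≤ 2 * (n + 1) * ((n + 1) ^ 2 + s + 1) := by
          apply Nat.mul_le_mul_left
          nlinarith
  · intro x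
    have h5 : Circ.eval Thr ⟨l.map ofGate ++ [.ask idx], l.length⟩ x =
        (vals Thr x (l.map ofGate ++ [.ask idx])).getD (l.map ofGate).length false := by
      unfold Circ.eval
      rw [List.length_map]
    rw [h5, vals_last, vals_ofGate]
    have h6 : idx.map (fun k => (values x l).getD k false) = str n (wt x) (C.eval S x) := by
      have h7 := i2 x
      have h8 : idx.map (fun i => nd x l i) = idx.map (fun k => (values x l).getD k false) := rfl
      rw [← h8, h7, hqs, List.map_append, List.map_map, List.map_map]
      unfold str
      congr 1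
      · refine List.map_congr_left fun b _ => ?_
        rw [Function.comp_apply, thr_vars]
        rfl
    have hw : wt x ≤ n := by
      unfold wt
      refine (card_le_univ _).trans ?_
      simp
    have h9 := str_mem hw (C.eval S x)
    rw [← h6] at h9
    rw [Bool.eq_iff_iff]
    simp only [Node.eval, decide_eq_true_eq]
    exact h9

end Pool.Agent.V8H39.MQ
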