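import Mathlib

/-!
# Circuits with questions to a set of strings, in layers
-/

set_option autoImplicit false

namespace Pool.Agent.V8H39.MQ

/-- A node of an oracle circuit with `n` inputs: an input variable, a constant, a two-input AND or
OR gate, a NOT gate, or a question: the string of the values of the nodes of the list `l` is
formed and the node has the value `true` if this string is in the oracle set. The natural numbers
are the numbers (counted from zero) of the nodes read by the gate. -/
inductive Node (n : ℕ) : Type
  | input (i : Fin n)
  | const (b : Bool)
  | and (a b : ℕ)
  | or (a b : ℕ)
  | not (a : ℕ)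
  | ask (l : List ℕ)

namespace Node

variable {n : ℕ}

open Classical in
/-- The value of a node, given the oracle set `S`, the input `x` and the values `v` of the nodes
it reads. -/
noncomputable def eval (S : Set (List Bool)) (x : Fin n → Bool) (v : ℕ → Bool) : Node n → Bool
  | input i => x i
  | const b => b
  | and a b => v a && v b
  | or a b => v a || v b
  | not a => !(v a)
  | ask l => decide (l.map v ∈ S)

/-- The contribution of a node to the size of a circuit: 1 for an AND or OR gate, `m + 1` for a
question of length `m`, and 0 for the other nodes. -/
def cost : Node n → ℕ
  | and _ _ => 1
  | or _ _ => 1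
  | ask l => l.length + 1
  | _ => 0

/-- The load of a node: 1 for a NOT gate, the number of strings of length `m` in the oracle set
for a question of length `m`, and 0 for the other nodes. -/
noncomputable def load (S : Set (List Bool)) : Node n → ℕ
  | not _ => 1
  | ask l => {w | w ∈ S ∧ w.length = l.length}.ncard
  | _ => 0

/-- the nodes read by an AND gate or an OR gate -/
def ins : Node n → List ℕ
  | and a b => [a, b]
  | or a b => [a, b]
  | _ => []

/-- the nodes read by a NOT gate or a question -/
def wires : Node n → List ℕ
  | not a => [a]
  | ask l => l
  | _ => []

/-- the node is a NOT gate -/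
def isNot : Node n → Bool
  | not _ => true
  | _ => false

/-- the node is a question -/
def isAsk : Node n → Bool
  | ask _ => true
  | _ => false

end Node

/-- An oracle circuit with `n` inputs: the list of its nodes, in an order in which every gate comes
after the nodes it reads, and the number of the output node. -/
structure Circ (n : ℕ) : Type where
  /-- the nodes -/
  nodes : List (Node n)
  /-- the number of the output node -/
  out : ℕ

/-- The list of the values of all nodes of a list of nodes (a reference to a node that is not
earlier reads `false`). -/
noncomputable def vals {n : ℕ} (S : Set (List Bool)) (x : Fin n → Bool) (l : List (Node n)) :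
    List Bool :=
  l.foldl (fun v g => v ++ [g.eval S x fun k => v.getD k false]) []

namespace Circ

variable {n : ℕ}

/-- The value of the output node. -/
noncomputable def eval (S : Set (List Bool)) (C : Circ n) (x : Fin n → Bool) : Bool :=
  (vals S x C.nodes).getD C.out false

/-- The size: the number of AND and OR gates, plus `m + 1` for every question of length `m`. -/
def size (C : Circ n) : ℕ := (C.nodes.map Node.cost).sum

/-- The function `lev` is a division of the nodes into layers `0, 1, 2, ...`: an AND or OR gate
reads nodes of its own layer or of lower layers, and a NOT gate or a question reads nodes of lower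
layers. -/
def Layered (C : Circ n) (lev : ℕ → ℕ) : Prop :=
  ∀ (i : ℕ) (h : i < C.nodes.length),
    (∀ k ∈ (C.nodes[i]).ins, k < i → lev k ≤ lev i) ∧
      ∀ k ∈ (C.nodes[i]).wires, k < i → lev k < lev i

/-- The load of the layer `j`: the sum of the loads of its nodes. -/
noncomputable def load (S : Set (List Bool)) (C : Circ n) (lev : ℕ → ℕ) (j : ℕ) : ℕ :=
  ∑ i ∈ (Finset.range C.nodes.length).filter (fun i => lev i = j),
    (C.nodes.getD i (.const false)).load S

/-- The product over all layers of `1 +` the load of the layer. -/
noncomputable def total (S : Set (List Bool)) (C : Circ n) (lev : ℕ → ℕ) : ℕ :=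
  ∏ j ∈ (Finset.range C.nodes.length).image lev, (1 + C.load S lev j)

/-- The circuit has no questions; the number of NOT gates is not limited. -/
def Plain (C : Circ n) : Prop := ∀ g ∈ C.nodes, g.isAsk = false

/-- The circuit has no NOT gates, and its only question is its last node, which is the output
node; the question has length `m`. (So the circuit is a many-one reduction computed by a
circuit with AND and OR gates.) -/
def OneAsk (C : Circ n) (m : ℕ) : Prop :=
  ∃ (L : List (Node n)) (l : List ℕ), C.nodes = L ++ [.ask l] ∧ C.out = L.length ∧
    l.length = m ∧ ∀ g ∈ L, g.isNot = false ∧ g.isAsk = false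

end Circ

/-- The strings of length `2 n + 1` in this set are `1^j 0^(n-j) 1^(j+1) 0^(n-j)` for
`j = 0, ..., n`. -/
def Thr : Set (List Bool) :=
  {w | ∃ n j : ℕ, j ≤ n ∧ w = (List.replicate j true ++ List.replicate (n - j) false) ++
    (List.replicate (j + 1) true ++ List.replicate (n - j) false)}

end Pool.Agent.V8H39.MQ
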