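import Pool.Agent.V8H39.MQ.Expand
import Pool.Agent.V8H38.NL.CliqueMain

/-!
# The lower bound for circuits with questions to a set with few strings
-/

set_option autoImplicit false

namespace Pool.Agent.V8H39.MQ

open Finset

variable {n : ℕ}

theorem one_le_prod_add (s : Finset ℕ) (f : ℕ → ℕ) : 1 ≤ ∏ j ∈ s, (1 + f j) :=
  Finset.prod_pos fun _ _ => Nat.add_pos_left Nat.one_pos _

theorem one_le_total (S : Set (List Bool)) (C : Circ n) (lev : ℕ → ℕ) : 1 ≤ C.total S lev :=
  one_le_prod_add _ _

theorem load_le_total (S : Set (List Bool)) (C : Circ n) (lev : ℕ → ℕ) (j : ℕ) :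
    C.load S lev j ≤ C.total S lev := by
  classical
  by_cases hj : j ∈ (range C.nodes.length).image lev
  · unfold Circ.total
    rw [← Finset.mul_prod_erase _ _ hj]
    have h1 : 1 ≤ ∏ i ∈ ((range C.nodes.length).image lev).erase j, (1 + C.load S lev i) :=
      one_le_prod_add _ _
    calc C.load S lev j ≤ (1 + C.load S lev j) * 1 := by omega
      _ ≤ _ := Nat.mul_le_mul_left _ h1
  · have : C.load S lev j = 0 := by
      unfold Circ.load
      rw [Finset.sum_eq_zero]
      intro i hi
      exact absurd (mem_image.2 ⟨i, (mem_filter.1 hi).1, (mem_filter.1 hi).2⟩) hj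
    omega

theorem node_load_le (S : Set (List Bool)) (C : Circ n) (lev : ℕ → ℕ) (g : Node n)
    (hg : g ∈ C.nodes) : g.load S ≤ C.total S lev := by
  classical
  obtain ⟨i, hi, rfl⟩ := List.mem_iff_getElem.1 hg
  refine le_trans ?_ (load_le_total S C lev (lev i))
  unfold Circ.load
  set t := lev i with ht
  have h1 : C.nodes.getD i (.const false) = C.nodes[i] := by
    rw [List.getD_eq_getElem _ _ hi]
  have h2 : i ∈ (range C.nodes.length).filter (fun i => lev i = t) :=
    mem_filter.2 ⟨mem_range.2 hi, ht.symm⟩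
  have h3 := Finset.single_le_sum (f := fun i => (C.nodes.getD i (.const false)).load S)
    (fun i _ => Nat.zero_le _) h2
  simp only [h1] at h3
  exact h3

theorem ecost_le (S : Set (List Bool)) (g : Node n) (K : ℕ) (hK : 1 ≤ K) (h : g.load S ≤ K) :
    ecost S g ≤ 2 * K * g.cost := by
  cases g with
  | input i => simp [ecost]
  | const b => simp [ecost]
  | and a b => simp only [ecost, Node.cost]; omega
  | or a b => simp only [ecost, Node.cost]; omega
  | not a => simp [ecost]
  | ask l =>
    simp only [ecost, Node.cost]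
    simp only [Node.load] at h
    calc {w : List Bool | w ∈ S ∧ w.length = l.length}.ncard * (l.length + 2)
        ≤ K * (2 * (l.length + 1)) := Nat.mul_le_mul h (by omega)
      _ = 2 * K * (l.length + 1) := by ring

theorem sum_le_of_mem {α : Type} (f g : α → ℕ) (c : ℕ) : ∀ l : List α, (∀ a ∈ l, f a ≤ c * g a) →
    (l.map f).sum ≤ c * (l.map g).sum := by
  intro l
  induction l with
  | nil => simp
  | cons a l ih =>
    intro h
    rw [List.map_cons, List.map_cons, List.sum_cons, List.sum_cons, mul_add]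
    exact Nat.add_le_add (h a List.mem_cons_self) (ih fun b hb => h b (List.mem_cons_of_mem _ hb))

/-- an oracle circuit as a circuit with NOT gates -/
theorem toNet (S : Set (List Bool)) (C : Circ n) (lev : ℕ → ℕ) (hL : C.Layered lev) :
    ∃ (C' : V8H38.NL.Net n) (lev' : ℕ → ℕ), C'.Layered lev' ∧
      C'.size ≤ 2 * C.total S lev * C.size ∧ (∀ x, C'.eval x = C.eval S x) ∧
      C'.combos lev' ≤ C.total S lev := by
  classical
  obtain ⟨R, L, h1, h2, h3, h4, h5⟩ := expand S lev C.nodes hL
  have hout : ∃ a, ((fun x => C.eval S x, a) ∈ L) := by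
    rcases Nat.lt_or_ge C.out C.nodes.length with hlt | hge
    · exact ⟨_, h5 _ hlt⟩
    · refine ⟨0, ?_⟩
      have e : (fun x => C.eval S x) = fun _ => false := by
        funext x
        unfold Circ.eval
        rw [List.getD_eq_default]
        rw [vals_length]; exact hge
      rw [e]; exact h4
  obtain ⟨a, ha⟩ := hout
  obtain ⟨C', lev', c1, c2, c3, c4⟩ := h1.toNet ha
  refine ⟨C', lev', c1, ?_, c3, ?_⟩
  · rw [c2]
    unfold Circ.size
    refine sum_le_of_mem _ _ _ _ fun g hg => ?_
    exact ecost_le S g _ (one_le_total S C lev) (node_load_le S C lev g hg)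
  · unfold V8H38.NL.Net.combos
    set T' := (range C'.nodes.length).image lev' with hT'
    set U := ((range C.nodes.length).image lev).image (fun j => 2 * j + 1) with hU
    have hR : ∀ i, i ∉ U → R i = 0 := by
      intro i hi
      rcases Nat.even_or_odd' i with ⟨j, rfl | rfl⟩
      · exact h2 j
      · rw [h3]
        unfold loadL
        refine Finset.sum_eq_zero fun k hk => ?_
        exfalso
        exact hi (mem_image.2 ⟨j, mem_image.2 ⟨k, (mem_filter.1 hk).1, (mem_filter.1 hk).2⟩, rfl⟩)
    calc ∏ j ∈ T', ((C'.cut lev' j).card + 1) ≤ ∏ j ∈ T', (R j + 1) :=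
          Finset.prod_le_prod' fun j _ => Nat.add_le_add_right (c4 j) 1
      _ ≤ ∏ j ∈ T' ∪ U, (R j + 1) := by
          rw [← Finset.union_sdiff_self_eq_union, Finset.prod_union Finset.disjoint_sdiff]
          have : 1 ≤ ∏ j ∈ U \ T', (R j + 1) := Finset.prod_pos fun j _ => Nat.succ_pos _
          exact Nat.le_mul_of_pos_right _ this
      _ = ∏ j ∈ U, (R j + 1) := by
          refine (Finset.prod_subset Finset.subset_union_right fun i _ hi => ?_).symm
          rw [hR i hi, zero_add]
      _ = ∏ j ∈ (range C.nodes.length).image lev, (R (2 * j + 1) + 1) := by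
          rw [hU, Finset.prod_image]
          intro a _ b _ hab
          simpa using hab
      _ = C.total S lev := by
          unfold Circ.total
          refine Finset.prod_congr rfl fun j _ => ?_
          rw [h3, add_comm]
          rfl

open Classical in
/-- The probability, under the distribution with the weights `D`, that the output of the circuit
with the oracle set `S` is correct for the predicate `f`. -/
noncomputable def agree (D : (Fin n → Bool) → ℝ) (S : Set (List Bool)) (C : Circ n)
    (f : (Fin n → Bool) → Prop) : ℝ :=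
  ∑ x, if (C.eval S x = true ↔ f x) then D x else 0

/-- **The lower bound.** -/
theorem lower (n μ : ℕ) (hn : 1 ≤ n) (hμ : Nat.log 2 n < μ) :
    ∃ D : (Fin n → Bool) → ℝ, (∀ x, 0 ≤ D x) ∧ ∑ x, D x = 1 ∧
      ∀ (S : Set (List Bool)) (C : Circ n) (lev : ℕ → ℕ), C.Layered lev → C.size ≤ 2 ^ μ →
        agree D S C (fun x => List.ofFn x ∈ V8H38.NL.HalfClique) ≤
          1 / 2 + 2 ^ 50 * C.total S lev * μ ^ 10 / n := by
  classical
  obtain ⟨D, h1, h2, h3⟩ := V8H38.NL.halfClique_avg n (2 * μ + 2) hn (by omega)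
  refine ⟨D, h1, h2, fun S C lev hL hs => ?_⟩
  have hμ1 : 1 ≤ μ := by omega
  have hn0 : (0:ℝ) < n := by exact_mod_cast hn
  have hμR : (1:ℝ) ≤ μ := by exact_mod_cast hμ1
  obtain ⟨C', lev', c1, c2, c3, c4⟩ := toNet S C lev hL
  have hag : agree D S C (fun x => List.ofFn x ∈ V8H38.NL.HalfClique) =
      V8H38.NL.Net.agree D C' (fun x => List.ofFn x ∈ V8H38.NL.HalfClique) := by
    unfold agree V8H38.NL.Net.agree
    refine Finset.sum_congr rfl fun x _ => ?_
    rw [c3]
  by_cases hK : n < C.total S lev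
  · have h4 := V8H38.NL.agree_le h1 C' (fun x => List.ofFn x ∈ V8H38.NL.HalfClique)
    rw [h2] at h4
    rw [hag]
    have h5 : (n:ℝ) ≤ C.total S lev := by exact_mod_cast hK.le
    have h6 : (1:ℝ) ≤ (μ:ℝ) ^ 10 := one_le_pow₀ hμR
    have h7 : (1:ℝ) / 2 ≤ 2 ^ 50 * C.total S lev * μ ^ 10 / n := by
      rw [div_le_div_iff₀ (by norm_num) hn0]
      have h8 : (C.total S lev : ℝ) * 1 ≤ C.total S lev * (μ:ℝ) ^ 10 := by gcongr
      nlinarith
    linarith
  · push Not at hK
    have hn2 : n < 2 ^ μ := Nat.lt_pow_of_log_lt (by norm_num) hμ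
    have hsize : C'.size ≤ 2 ^ (2 * μ + 2) := by
      calc C'.size ≤ 2 * C.total S lev * C.size := c2
        _ ≤ 2 * 2 ^ μ * 2 ^ μ := by gcongr; omega
        _ = 2 ^ (2 * μ + 1) := by ring
        _ ≤ _ := Nat.pow_le_pow_right (by norm_num) (by omega)
    have h4 := h3 C' lev' c1 hsize
    rw [hag]
    refine h4.trans ?_
    have h5 : (C'.combos lev' : ℝ) ≤ C.total S lev := by exact_mod_cast c4
    have h6 : ((2 * μ + 2 : ℕ) : ℝ) ^ 10 ≤ (4 * μ) ^ 10 := by
      gcongr
      push_cast
      linarith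
    have h7 : ((4:ℝ) * μ) ^ 10 = 2 ^ 20 * μ ^ 10 := by ring
    rw [h7] at h6
    calc (1:ℝ) / 2 + 2 ^ 30 * C'.combos lev' * ((2 * μ + 2 : ℕ) : ℝ) ^ 10 / n
        ≤ 1 / 2 + 2 ^ 30 * C.total S lev * (2 ^ 20 * μ ^ 10) / n := by gcongr
      _ = _ := by ring

end Pool.Agent.V8H39.MQ
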