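import Pool.Agent.V8H38.NL.Layers
import Pool.Agent.V8H39.MQ.Defs

/-!
# Layered programs as layered circuits
-/

set_option autoImplicit false

namespace Pool.Agent.V8H39.MQ

open Finset

variable {n : ℕ}

/-- Layered programs: `s` AND and OR gates, and `R j` NOT gates in the layer `j`. -/
inductive LP (n : ℕ) : ℕ → (ℕ → ℕ) → List (((Fin n → Bool) → Bool) × ℕ) → Prop
  | nil : LP n 0 (fun _ => 0) []
  | input {s : ℕ} {R : ℕ → ℕ} {L : List (((Fin n → Bool) → Bool) × ℕ)} (i : Fin n) (j : ℕ)
      (h : LP n s R L) : LP n s R ((fun x => x i, j) :: L)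
  | const {s : ℕ} {R : ℕ → ℕ} {L : List (((Fin n → Bool) → Bool) × ℕ)} (b : Bool) (j : ℕ)
      (h : LP n s R L) : LP n s R ((fun _ => b, j) :: L)
  | and {s : ℕ} {R : ℕ → ℕ} {L : List (((Fin n → Bool) → Bool) × ℕ)}
      {f g : (Fin n → Bool) → Bool} {j : ℕ} (h : LP n s R L)
      (hf : ∃ a, a ≤ j ∧ (f, a) ∈ L) (hg : ∃ a, a ≤ j ∧ (g, a) ∈ L) :
      LP n (s + 1) R ((fun x => f x && g x, j) :: L)
  | or {s : ℕ} {R : ℕ → ℕ} {L : List (((Fin n → Bool) → Bool) × ℕ)}
      {f g : (Fin n → Bool) → Bool} {j : ℕ} (h : LP n s R L)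
      (hf : ∃ a, a ≤ j ∧ (f, a) ∈ L) (hg : ∃ a, a ≤ j ∧ (g, a) ∈ L) :
      LP n (s + 1) R ((fun x => f x || g x, j) :: L)
  | not {s : ℕ} {R : ℕ → ℕ} {L : List (((Fin n → Bool) → Bool) × ℕ)}
      {f : (Fin n → Bool) → Bool} {j : ℕ} (h : LP n s R L)
      (hf : ∃ a, a < j ∧ (f, a) ∈ L) :
      LP n s (fun i => R i + if i = j then 1 else 0) ((fun x => !(f x), j) :: L)

/-- the layering condition for lists of nodes -/
def Lay (l : List (V8H38.NL.Node n)) (lv : ℕ → ℕ) : Prop :=
  ∀ (i : ℕ) (h : i < l.length), (∀ k ∈ (l[i]).ins, k < i → lv k ≤ lv i) ∧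
    ∀ k ∈ (l[i]).wires, k < i → lv k < lv i

theorem lay_append {l : List (V8H38.NL.Node n)} {lv : ℕ → ℕ} (h : Lay l lv)
    (g : V8H38.NL.Node n) (j : ℕ) (h1 : ∀ k ∈ g.ins, k < l.length → lv k ≤ j)
    (h2 : ∀ k ∈ g.wires, k < l.length → lv k < j) :
    Lay (l ++ [g]) (Function.update lv l.length j) := by
  intro i hi
  rw [List.length_append, List.length_singleton] at hi
  have hup : ∀ k, k ≠ l.length → Function.update lv l.length j k = lv k := fun k hk =>
    Function.update_of_ne hk _ _
  rcases Nat.lt_or_ge i l.length with hlt | hge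
  · rw [List.getElem_append_left hlt, hup i (by omega)]
    constructor
    · intro k hk hki
      rw [hup k (by omega)]
      exact (h i hlt).1 k hk hki
    · intro k hk hki
      rw [hup k (by omega)]
      exact (h i hlt).2 k hk hki
  · have hi' : i = l.length := by omega
    subst hi'
    rw [List.getElem_append_right (le_refl _)]
    simp only [Nat.sub_self, List.getElem_singleton, Function.update_self]
    constructor
    · intro k hk hki
      rw [hup k (by omega)]
      exact h1 k hk hki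
    · intro k hk hki
      rw [hup k (by omega)]
      exact h2 k hk hki

/-- what is kept during the translation -/
structure Tr (l : List (V8H38.NL.Node n)) (lv : ℕ → ℕ) (s : ℕ) (R : ℕ → ℕ)
    (L : List (((Fin n → Bool) → Bool) × ℕ)) : Prop where
  size : l.countP V8H38.NL.Node.isAndOr = s
  lay : Lay l lv
  cut : ∀ j, ∃ T : Finset ℕ, T.card ≤ R j ∧ ∀ (i : ℕ) (h : i < l.length), lv i = j →
    ∀ k ∈ (l[i]).wires, k ∈ T
  val : ∀ p ∈ L, ∃ i, i < l.length ∧ lv i = p.2 ∧ ∀ x, (V8H38.NL.vals x l).getD i false = p.1 x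

theorem Tr.step {l : List (V8H38.NL.Node n)} {lv : ℕ → ℕ} {s : ℕ} {R : ℕ → ℕ}
    {L : List (((Fin n → Bool) → Bool) × ℕ)} (h : Tr l lv s R L) (g : V8H38.NL.Node n) (j s' : ℕ)
    (R' : ℕ → ℕ) (f : (Fin n → Bool) → Bool)
    (hs : s' = s + if g.isAndOr then 1 else 0)
    (h1 : ∀ k ∈ g.ins, k < l.length → lv k ≤ j) (h2 : ∀ k ∈ g.wires, k < l.length → lv k < j)
    (hR : ∀ i, R i ≤ R' i) (hR' : g.wires.length + R j ≤ R' j)
    (hf : ∀ x, g.eval x (fun k => (V8H38.NL.vals x l).getD k false) = f x) :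
    Tr (l ++ [g]) (Function.update lv l.length j) s' R' ((f, j) :: L) := by
  classical
  have hup : ∀ k, k ≠ l.length → Function.update lv l.length j k = lv k := fun k hk =>
    Function.update_of_ne hk _ _
  refine ⟨?_, lay_append h.lay g j h1 h2, ?_, ?_⟩
  · rw [List.countP_append, h.size, hs]
    simp [List.countP_cons]
  · intro i
    obtain ⟨T, hT, hT'⟩ := h.cut i
    by_cases hij : i = j
    · subst hij
      refine ⟨T ∪ g.wires.toFinset, ?_, ?_⟩
      · refine (card_union_le _ _).trans ?_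
        have := List.toFinset_card_le g.wires
        omega
      · intro a ha hai k hk
        rw [List.length_append, List.length_singleton] at ha
        rcases Nat.lt_or_ge a l.length with hlt | hge
        · rw [List.getElem_append_left hlt] at hk
          rw [hup a (by omega)] at hai
          exact mem_union_left _ (hT' a hlt hai k hk)
        · have ha' : a = l.length := by omega
          subst ha'
          rw [List.getElem_append_right (le_refl _)] at hk
          simp only [Nat.sub_self, List.getElem_singleton] at hk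
          exact mem_union_right _ (List.mem_toFinset.2 hk)
    · refine ⟨T, hT.trans (hR i), ?_⟩
      intro a ha hai k hk
      rw [List.length_append, List.length_singleton] at ha
      rcases Nat.lt_or_ge a l.length with hlt | hge
      · rw [List.getElem_append_left hlt] at hk
        rw [hup a (by omega)] at hai
        exact hT' a hlt hai k hk
      · have ha' : a = l.length := by omega
        subst ha'
        rw [Function.update_self] at hai
        exact absurd hai.symm hij
  · intro p hp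
    rcases List.mem_cons.1 hp with rfl | hp
    · refine ⟨l.length, by simp, by rw [Function.update_self], fun x => ?_⟩
      rw [V8H38.NL.vals_append, List.getD_append_right _ _ _ _ (by rw [V8H38.NL.vals_length]),
        V8H38.NL.vals_length]
      simp only [Nat.sub_self, List.getD_cons_zero]
      exact hf x
    · obtain ⟨i, hi, hlv, hv⟩ := h.val p hp
      refine ⟨i, by rw [List.length_append, List.length_singleton]; omega, ?_, fun x => ?_⟩
      · rw [hup i (by omega)]; exact hlv
      · rw [V8H38.NL.vals_getD_append _ _ _ _ hi]; exact hv x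

theorem LP.tr {s : ℕ} {R : ℕ → ℕ} {L : List (((Fin n → Bool) → Bool) × ℕ)} (h : LP n s R L) :
    ∃ (l : List (V8H38.NL.Node n)) (lv : ℕ → ℕ), Tr l lv s R L := by
  induction h with
  | nil =>
    refine ⟨[], fun _ => 0, rfl, fun i hi => ?_, fun j => ⟨∅, by simp, fun i hi => ?_⟩, by simp⟩
    · simp at hi
    · simp at hi
  | @input s R L i j _ ih =>
    obtain ⟨l, lv, h⟩ := ih
    exact ⟨_, _, h.step (.input i) j s R (fun x => x i) rfl (by simp [V8H38.NL.Node.ins])
      (by simp [V8H38.NL.Node.wires]) (fun _ => le_rfl) (by simp [V8H38.NL.Node.wires])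
      (fun x => rfl)⟩
  | @const s R L b j _ ih =>
    obtain ⟨l, lv, h⟩ := ih
    exact ⟨_, _, h.step (.const b) j s R (fun x => b) rfl (by simp [V8H38.NL.Node.ins])
      (by simp [V8H38.NL.Node.wires]) (fun _ => le_rfl) (by simp [V8H38.NL.Node.wires])
      (fun x => rfl)⟩
  | @and s R L f g j _ hf hg ih =>
    obtain ⟨l, lv, h⟩ := ih
    obtain ⟨a, ha, ha'⟩ := hf
    obtain ⟨b, hb, hb'⟩ := hg
    obtain ⟨i1, hi1, hl1, hv1⟩ := h.val _ ha'
    obtain ⟨i2, hi2, hl2, hv2⟩ := h.val _ hb'
    refine ⟨_, _, h.step (.and i1 i2) j (s + 1) R (fun x => f x && g x) rfl ?_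
      (by simp [V8H38.NL.Node.wires]) (fun _ => le_rfl) (by simp [V8H38.NL.Node.wires]) ?_⟩
    · intro k hk _
      simp only [V8H38.NL.Node.ins, List.mem_cons, List.not_mem_nil, or_false] at hk
      rcases hk with rfl | rfl
      · rw [hl1]; exact ha
      · rw [hl2]; exact hb
    · intro x
      show ((V8H38.NL.vals x l).getD i1 false && (V8H38.NL.vals x l).getD i2 false) = _
      rw [hv1, hv2]
  | @or s R L f g j _ hf hg ih =>
    obtain ⟨l, lv, h⟩ := ih
    obtain ⟨a, ha, ha'⟩ := hf
    obtain ⟨b, hb, hb'⟩ := hg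
    obtain ⟨i1, hi1, hl1, hv1⟩ := h.val _ ha'
    obtain ⟨i2, hi2, hl2, hv2⟩ := h.val _ hb'
    refine ⟨_, _, h.step (.or i1 i2) j (s + 1) R (fun x => f x || g x) rfl ?_
      (by simp [V8H38.NL.Node.wires]) (fun _ => le_rfl) (by simp [V8H38.NL.Node.wires]) ?_⟩
    · intro k hk _
      simp only [V8H38.NL.Node.ins, List.mem_cons, List.not_mem_nil, or_false] at hk
      rcases hk with rfl | rfl
      · rw [hl1]; exact ha
      · rw [hl2]; exact hb
    · intro x
      show ((V8H38.NL.vals x l).getD i1 false || (V8H38.NL.vals x l).getD i2 false) = _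
      rw [hv1, hv2]
  | @not s R L f j _ hf ih =>
    obtain ⟨l, lv, h⟩ := ih
    obtain ⟨a, ha, ha'⟩ := hf
    obtain ⟨i1, hi1, hl1, hv1⟩ := h.val _ ha'
    refine ⟨_, _, h.step (.not i1) j s _ (fun x => !(f x)) rfl (by simp [V8H38.NL.Node.ins])
      ?_ (fun i => Nat.le_add_right _ _) ?_ ?_⟩
    · intro k hk _
      simp only [V8H38.NL.Node.wires, List.mem_cons, List.not_mem_nil, or_false] at hk
      subst hk
      rw [hl1]; exact ha
    · simp only [V8H38.NL.Node.wires, List.length_singleton, if_true]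
      omega
    · intro x
      show (!((V8H38.NL.vals x l).getD i1 false)) = _
      rw [hv1]

/-- layered programs as layered circuits -/
theorem LP.toNet {s : ℕ} {R : ℕ → ℕ} {L : List (((Fin n → Bool) → Bool) × ℕ)} (h : LP n s R L)
    {f : (Fin n → Bool) → Bool} {a : ℕ} (hf : (f, a) ∈ L) :
    ∃ (C : V8H38.NL.Net n) (lev : ℕ → ℕ), C.Layered lev ∧ C.size = s ∧ (∀ x, C.eval x = f x) ∧
      ∀ j, (C.cut lev j).card ≤ R j := by
  classical
  obtain ⟨l, lv, h⟩ := h.tr
  obtain ⟨i, _, _, hv⟩ := h.val _ hf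
  refine ⟨⟨l, i⟩, lv, h.lay, h.size, hv, fun j => ?_⟩
  obtain ⟨T, hT, hT'⟩ := h.cut j
  refine (card_le_card ?_).trans hT
  intro k hk
  rw [V8H38.NL.mem_cut] at hk
  obtain ⟨i', hi, _, hl, hw⟩ := hk
  exact hT' i' hi hl k hw

end Pool.Agent.V8H39.MQ
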